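import Mathlib

namespace Pool.Agent.Results.MP_10302a_co.Counter

open Finset

variable {m n : ℕ}

/-- Condition 1 does not occur. -/
def Free (E : Finset (Fin m × Fin n)) : Prop :=
  ¬ ∃ i k j l, i ≠ k ∧ j ≠ l ∧ (i, j) ∈ E ∧ (i, l) ∈ E ∧ (k, j) ∈ E ∧ (k, l) ∈ E

/-- The Zarankiewicz number. -/
noncomputable def z (m n : ℕ) : ℕ := sSup {s | ∃ E : Finset (Fin m × Fin n), Free E ∧ E.card = s}

/-- A simple, generalized cycle-free augmented graph `(E₁, E₂, E₃)`. -/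
def Good (E₁ : Finset (Fin m × Fin n)) (E₂ E₃ : Finset (Finset (Fin m × Fin n))) : Prop :=
  (∀ e ∈ E₂, e.card = 2) ∧ (∀ e ∈ E₃, e.card = 3) ∧
  (∀ e ∈ E₂ ∪ E₃, Disjoint E₁ e) ∧ (∀ e ∈ E₂ ∪ E₃, ∀ f ∈ E₂ ∪ E₃, e ≠ f → Disjoint e f) ∧
  Free E₁ ∧
  (¬ ∃ i k j l, i ≠ k ∧ j ≠ l ∧ ∃ e ∈ E₂ ∪ E₃, ∃ f ∈ E₂ ∪ E₃, e ≠ f ∧
    {(i, j), (i, l), (k, j), (k, l)} ⊆ e ∪ f ∧ ({(i, j), (i, l), (k, j), (k, l)} ∩ e).card = 2 ∧
    ({(i, j), (i, l), (k, j), (k, l)} ∩ f).card = 2) ∧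
  (¬ ∃ i j p q k l, {(i, j), (p, q)} ∈ E₂ ∧ k ≠ i ∧ k ≠ p ∧ l ≠ j ∧ l ≠ q ∧
    ∀ c ∈ [(k, j), (k, l), (k, q), (i, l), (p, l)], c ∈ E₁ ∨ ∃ e ∈ E₂, c ∈ e) ∧
  ¬ ∃ i j p q u v k l, {(i, j), (p, q), (u, v)} ∈ E₃ ∧ k ≠ i ∧ k ≠ p ∧ k ≠ u ∧ l ≠ j ∧ l ≠ q ∧
    l ≠ v ∧ ∀ c ∈ [(k, j), (k, l), (k, q), (k, v), (i, l), (p, l), (u, l)],
      c ∈ E₁ ∨ ∃ e ∈ E₂ ∪ E₃, c ∈ e

noncomputable def z3A (m n : ℕ) : ℕ :=
  sSup {s | ∃ (E₁ : Finset (Fin m × Fin n)) (E₂ E₃ : Finset (Finset (Fin m × Fin n))),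
    Good E₁ E₂ E₃ ∧ E₁.card + E₂.card + E₃.card = s}

noncomputable def z3L (m n : ℕ) : ℕ :=
  sSup {s | ∃ (E₁ : Finset (Fin m × Fin n)) (E₂ E₃ : Finset (Finset (Fin m × Fin n))),
    (Good E₁ E₂ E₃ ∧ E₁.card = z m n) ∧ E₁.card + E₂.card + E₃.card = s}

abbrev P (m : ℕ) := {p : Fin m × Fin m // p.1 < p.2}

theorem zle (E : Finset (Fin m × Fin n)) (h : Free E) : E.card ≤ n + Fintype.card (P m) := by
  classical
  have : ∀ c : Fin m × Fin n, ∃ i, c ∈ E → (i, c.2) ∈ E ∧ ∀ k, (k, c.2) ∈ E → i ≤ k := fun c => by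
    by_cases hc : c ∈ E
    · obtain ⟨i, h1, h2⟩ := exists_min_image (univ.filter fun i => (i, c.2) ∈ E) id ⟨c.1, by simpa⟩
      exact ⟨i, fun _ => ⟨by simpa using h1, fun k hk => h2 k (by simpa)⟩⟩
    · exact ⟨c.1, fun q => absurd q hc⟩
  choose μ hμ using this
  have h1 := fun c hc => (hμ c hc).1
  have h2 := fun c hc => (hμ c hc).2
  have := card_le_card_of_injOn (s := E) (t := (univ : Finset (Fin n ⊕ P m)))
    (fun c => if q : μ c < c.1 then .inr ⟨(μ c, c.1), q⟩ else .inl c.2) (fun _ _ => mem_univ _)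
    fun c hc d hd e => by
      have c1 := h1 c hc
      have d1 := h1 d hd
      by_cases p : μ c < c.1 <;> by_cases q : μ d < d.1 <;> simp [p, q] at e
      · by_contra ne
        exact h ⟨μ c, c.1, c.2, d.2, p.ne, fun z => ne (Prod.ext e.2 z), c1, e.1 ▸ d1, hc,
          e.2 ▸ hd⟩
      · exact Prod.ext (le_antisymm ((not_lt.1 p).trans (h2 c hc _ (e ▸ hd)))
          ((not_lt.1 q).trans (h2 d hd _ (e ▸ hc)))) e
  simpa using this

theorem build (a b : ℕ) (ρ : Bool × Fin (a + 1) ≃ Fin m) (κ : (Bool × Fin b) ⊕ P m ≃ Fin n) :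
    ∃ (E₁ : Finset (Fin m × Fin n)) (E₂ : Finset (Finset (Fin m × Fin n))),
      Good E₁ E₂ ∅ ∧ E₁.card = z m n ∧ E₂.card = a * b := by
  classical
  let f : (Bool × Fin b) ⊕ P m ⊕ P m → Fin m × Fin n := Sum.elim (fun p => (ρ (p.1, 0), κ (.inl p)))
    (Sum.elim (fun p => (p.1.1, κ (.inr p))) fun p => (p.1.2, κ (.inr p)))
  let A : Bool → Fin a × Fin b → Fin m × Fin n := fun s p => (ρ (s, p.1.succ), κ (.inl (s, p.2)))
  have hA : ∀ s p t q, A s p = A t q ↔ s = t ∧ p = q := fun s p t q => by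
    simp [A, Prod.ext_iff]; tauto
  let g : Fin a × Fin b → Finset (Fin m × Fin n) := fun p => {A false p, A true p}
  have mg : ∀ c p, c ∈ g p ↔ ∃ s, c = A s p := fun c p => by simp [g]
  have fi : Function.Injective f := by
    rintro (p | p | p) (q | q | q) e <;> simp only [f, Sum.elim_inl, Sum.elim_inr, Prod.mk.injEq,
      κ.injective.eq_iff, Sum.inl.injEq, Sum.inr.injEq, reduceCtorEq, and_false] at e ⊢
    · exact e.2
    · exact e.2
    · exact p.2.ne (e.1.trans (by rw [e.2]))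
    · exact p.2.ne' (e.1.trans (by rw [e.2]))
    · exact e.2
  have c1 : ∀ i s y, (i, κ (.inl (s, y))) ∈ univ.image f → i = ρ (s, 0) := fun i s y h => by
    obtain ⟨p | p | p, -, e⟩ := mem_image.1 h <;> simp [f] at e
    rw [← e.1, e.2]
  have c2 : ∀ i p, (i, κ (.inr p)) ∈ univ.image f → i = p.1.1 ∨ i = p.1.2 := fun i p h => by
    obtain ⟨q | q | q, -, e⟩ := mem_image.1 h <;> simp [f] at e <;> rw [← e.1, e.2] <;> simp
  have fr : Free (univ.image f) := by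
    rintro ⟨i, k, j, l, n1, n2, p1, p2, p3, p4⟩
    obtain ⟨⟨s, y⟩ | p, rfl⟩ := κ.surjective j
    · exact n1 ((c1 _ _ _ p1).trans (c1 _ _ _ p3).symm)
    obtain ⟨⟨s, y⟩ | q, rfl⟩ := κ.surjective l
    · exact n1 ((c1 _ _ _ p2).trans (c1 _ _ _ p4).symm)
    have := c2 _ _ p1
    have := c2 _ _ p2
    have := c2 _ _ p3
    have := c2 _ _ p4
    have := p.2
    have := q.2
    exact n2 (by rw [Subtype.ext (Prod.ext (by omega) (by omega) : p.1 = q.1)])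
  have oc : ∀ i s y, ((i, κ (.inl (s, y))) ∈ univ.image f ∨ ∃ e ∈ univ.image g,
      (i, κ (.inl (s, y))) ∈ e) → (ρ.symm i).1 = s := by
    rintro i s y (h | ⟨e, he, h⟩)
    · simp [c1 _ _ _ h]
    · obtain ⟨p, -, rfl⟩ := mem_image.1 he
      obtain ⟨t, h⟩ := (mg _ _).1 h
      simp [A] at h
      simp [h.1, h.2.1]
  refine ⟨univ.image f, univ.image g, ⟨?_, by simp, ?_, ?_, fr, ?_, ?_, by simp⟩, ?_, ?_⟩
  · simp only [forall_mem_image]
    exact fun p _ => card_pair (by simp [hA])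
  · simp only [union_empty, forall_mem_image]
    refine fun p _ => disjoint_right.2 fun c hc h => ?_
    obtain ⟨s, rfl⟩ := (mg _ _).1 hc
    simpa using c1 _ _ _ h
  · simp only [union_empty, forall_mem_image]
    refine fun p _ q _ ne => disjoint_right.2 fun c hc h => ?_
    obtain ⟨s, rfl⟩ := (mg _ _).1 hc
    obtain ⟨t, h⟩ := (mg _ _).1 h
    exact ne (by rw [((hA _ _ _ _).1 h).2])
  · rintro ⟨i, k, j, l, n1, n2, e, he, e', he', -, sub, -⟩
    rw [union_empty] at he he'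
    obtain ⟨p, -, rfl⟩ := mem_image.1 he
    obtain ⟨q, -, rfl⟩ := mem_image.1 he'
    have w : ∀ c ∈ g p ∪ g q, ∃ s, c = A s p ∨ c = A s q := fun c hc => by
      simpa only [mem_union, mg, exists_or] using hc
    obtain ⟨s1, w1⟩ := w (i, j) (sub (by simp))
    obtain ⟨s2, w2⟩ := w (i, l) (sub (by simp))
    obtain ⟨s3, w3⟩ := w (k, j) (sub (by simp))
    have sd : ∀ c s, c = A s p ∨ c = A s q → (ρ.symm c.1).1 = s ∧
        Sum.elim Prod.fst (fun _ => true) (κ.symm c.2) = s := by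
      rintro _ s (rfl | rfl) <;> simp [A]
    obtain rfl : s1 = s2 := (sd _ _ w1).1.symm.trans (sd _ _ w2).1
    obtain rfl : s1 = s3 := (sd _ _ w1).2.symm.trans (sd _ _ w3).2
    generalize A s1 p = x, A s1 q = y at w1 w2 w3
    clear * - n1 n2 w1 w2 w3
    rcases w1 with rfl | rfl <;> rcases w2 with w2 | w2 <;> rcases w3 with w3 | w3 <;> grind
  · rintro ⟨i, j, p, q, k, l, h, -, -, -, -, o⟩
    obtain ⟨x, -, e⟩ := mem_image.1 h
    have u : ∀ s, A s x = (i, j) ∨ A s x = (p, q) := fun s => by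
      simpa using (e ▸ (mg _ _).2 ⟨s, rfl⟩ : A s x ∈ ({(i, j), (p, q)} : Finset _))
    have v : ∀ s, (ρ.symm k).1 = s := fun s => oc k s x.2 (by
      rcases u s with z | z
      · exact (show κ (.inl (s, x.2)) = j from congrArg Prod.snd z) ▸ o (k, j) (by simp)
      · exact (show κ (.inl (s, x.2)) = q from congrArg Prod.snd z) ▸ o (k, q) (by simp))
    simpa using (v true).symm.trans (v false)
  · have cd : (univ.image f).card = n + Fintype.card (P m) := by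
      have := Fintype.card_congr κ
      rw [card_image_of_injective _ fi, card_univ]
      simp only [Fintype.card_sum, Fintype.card_fin] at this ⊢
      omega
    refine (IsGreatest.csSup_eq ⟨⟨univ.image f, fr, rfl⟩, ?_⟩ : z m n = _).symm
    rintro _ ⟨E, h, rfl⟩
    exact (zle E h).trans cd.ge
  · rw [card_image_of_injective _ fun p q e => by
      obtain ⟨t, h⟩ := (mg _ _).1 (e ▸ (mg _ _).2 ⟨true, rfl⟩ : A true p ∈ g q)
      exact ((hA _ _ _ _).1 h).2]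
    simp

theorem result : ∀ C : ℝ, ∃ m n : ℕ, 2 ≤ m ∧ 2 ≤ n ∧
    C * (m * √n + n) < z3L m n ∧ C * (m * √n + n) < z3A m n := by
  intro C
  obtain ⟨a, ha⟩ := exists_nat_gt (max (5 * C) 0)
  have a1 : (0 : ℝ) < a := (le_max_right _ _).trans_lt ha
  have a2 : 5 * C < a := (le_max_left _ _).trans_lt ha
  obtain ⟨m, hm⟩ : ∃ m, m = 2 * (a + 1) := ⟨_, rfl⟩
  obtain ⟨n, hn⟩ : ∃ n, n = 2 * m ^ 2 + Fintype.card (P m) := ⟨_, rfl⟩
  obtain ⟨E₁, E₂, h1, h2, h3⟩ := build (m := m) (n := n) a (m ^ 2)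
    (Fintype.equivOfCardEq (by simp [hm])) (Fintype.equivOfCardEq (by simp [hn]))
  have p : Fintype.card (P m) ≤ m ^ 2 := (Fintype.card_subtype_le _).trans (by simp [sq])
  have m2 : 2 ≤ m := by omega
  have k : C * (m * √n + n) < (E₁.card + E₂.card + (∅ : Finset (Finset (Fin m × Fin n))).card : ℕ) := by
    have n1 : (n : ℝ) ≤ 3 * m ^ 2 := by exact_mod_cast (show n ≤ 3 * m ^ 2 by omega)
    have m1 : (2 : ℝ) ≤ m := by exact_mod_cast m2
    have s : √n ≤ 2 * m := Real.sqrt_le_iff.2 ⟨by positivity, by nlinarith⟩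
    have t : (m * √n + n : ℝ) ≤ 5 * m ^ 2 := by nlinarith
    have t0 : (0 : ℝ) ≤ m * √n + n := by positivity
    have : (0 : ℝ) ≤ E₁.card := by positivity
    have m0 : (0 : ℝ) < m ^ 2 := by positivity
    rw [h3]; push_cast
    rcases le_total C 0 with c | c
    · nlinarith [mul_pos a1 m0, mul_nonpos_of_nonpos_of_nonneg c t0]
    · nlinarith [mul_le_mul_of_nonneg_left t c, mul_pos (sub_pos.2 a2) m0]
  have b : ∀ Q : Finset (Fin m × Fin n) → Finset (Finset (Fin m × Fin n)) →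
      Finset (Finset (Fin m × Fin n)) → Prop,
      BddAbove {s | ∃ A B D, Q A B D ∧ A.card + B.card + D.card = s} := fun Q =>
    ⟨_, by rintro _ ⟨A, B, D, -, rfl⟩
           exact add_le_add (add_le_add (card_le_univ _) (card_le_univ _)) (card_le_univ _)⟩
  exact ⟨m, n, m2, by nlinarith, k.trans_le (Nat.cast_le.2 (le_csSup (b _) ⟨_, _, _, ⟨h1, h2⟩, rfl⟩)),
    k.trans_le (Nat.cast_le.2 (le_csSup (b _) ⟨_, _, _, h1, rfl⟩))⟩

end Pool.Agent.Results.MP_10302a_co.Counter
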